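import Pool.Agent.V7H54.N.ClN

/-!
# The average number of the ideal classes of order two in one-parameter families of cubic fields
-/

set_option autoImplicit false
set_option linter.all false

open Polynomial Matrix NumberField IsDedekindDomain nonZeroDivisors
open scoped Classical

namespace Pool.Agent.V7H54.N

open Pool.Agent.V7H54.A
open Pool.Agent.N783.PF

theorem ht_pol2 {A t : ℤ} {B : ℕ} (hA : |A| ≤ (B : ℤ) ^ 2) (ht : |t| ≤ (B : ℤ) ^ 3) :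
    Ht 1 B (pol A t) := by
  refine ⟨pol_mon _ _, pol_deg _ _, pol_c2 _ _, fun j hj σ => ?_⟩
  have hj' : j = 0 ∨ j = 1 ∨ j = 2 := by omega
  rcases hj' with rfl | rfl | rfl
  · rw [pol_c0]
    have e : (((t : 𝓞 ℚ)) : ℚ) = (t : ℚ) := by simp
    rw [e, norm_rat]
    have : |(t : ℝ)| ≤ (B : ℝ) ^ 3 := by exact_mod_cast ht
    simpa using this
  · rw [pol_c1]
    have e : (((A : 𝓞 ℚ)) : ℚ) = (A : ℚ) := by simp
    rw [e, norm_rat]
    have : |(A : ℝ)| ≤ (B : ℝ) ^ 2 := by exact_mod_cast hA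
    simpa using this
  · have h : (pol A t).coeff 2 = 0 := pol_c2 _ _
    rw [h]
    simp

/-- choice of `B` -/
theorem ex_B (A u : ℤ) (B₀ : ℕ) : ∃ C : ℝ, 0 ≤ C ∧ ∀ T : ℝ, 1 ≤ T → ∃ B : ℕ, B₀ ≤ B ∧
    |A| ≤ (B : ℤ) ^ 2 ∧ (∀ t : ℤ, |(t : ℝ)| ≤ T → |27 * t + u| ≤ (B : ℤ) ^ 3) ∧
    (B : ℝ) ^ 3 ≤ C * T := by
  obtain ⟨m, hm⟩ : ∃ m : ℕ, m = B₀ + A.natAbs + u.natAbs + 28 := ⟨_, rfl⟩
  refine ⟨8 * (m : ℝ) ^ 3, by positivity, fun T hT => ?_⟩
  obtain ⟨n, hn⟩ : ∃ n : ℕ, n = ⌈T ^ ((1 : ℝ) / 3)⌉₊ := ⟨_, rfl⟩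
  have hT0 : 0 ≤ T := by linarith
  obtain ⟨z, hz⟩ : ∃ z : ℝ, z = T ^ ((1 : ℝ) / 3) := ⟨_, rfl⟩
  have hz0 : 0 ≤ z := by rw [hz]; positivity
  have hz3 : z ^ 3 = T := by
    rw [hz, ← Real.rpow_natCast, ← Real.rpow_mul hT0]
    norm_num
  have hz1 : 1 ≤ z := by
    by_contra h
    push Not at h
    have : z ^ 3 < 1 := pow_lt_one₀ hz0 h (by norm_num)
    linarith
  rw [← hz] at hn
  have hnz : z ≤ n := by rw [hn]; exact Nat.le_ceil z
  have hnz2 : (n : ℝ) ≤ 2 * z := by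
    have := (Nat.ceil_lt_add_one hz0).le
    rw [← hn] at this
    linarith
  have hn1 : 1 ≤ n := by
    have : (1 : ℝ) ≤ n := hz1.trans hnz
    exact_mod_cast this
  have hTn : T ≤ (n : ℝ) ^ 3 := by
    rw [← hz3]
    exact pow_le_pow_left₀ hz0 hnz 3
  have hmn : m ≤ m * n := Nat.le_mul_of_pos_right _ hn1
  refine ⟨m * n, ?_, ?_, ?_, ?_⟩
  · omega
  · have h1 : A.natAbs ≤ (m * n) ^ 2 := by
      have : m * n ≤ (m * n) ^ 2 := Nat.le_self_pow (by norm_num) _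
      omega
    rw [Int.abs_eq_natAbs]
    exact_mod_cast h1
  · intro t ht
    have h1 : |(27 * t + u : ℝ)| ≤ ((m : ℝ) * n) ^ 3 := by
      have h2 : |(u : ℝ)| ≤ m := by
        rw [← Int.cast_abs, Int.abs_eq_natAbs, Int.cast_natCast]
        have : u.natAbs ≤ m := by omega
        exact_mod_cast this
      have hm28 : (28 : ℝ) ≤ m := by
        have : 28 ≤ m := by omega
        exact_mod_cast this
      calc |(27 * t + u : ℝ)| ≤ |(27 * t : ℝ)| + |(u : ℝ)| := abs_add_le _ _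
        _ = 27 * |(t : ℝ)| + |(u : ℝ)| := by
            rw [abs_mul]
            norm_num
        _ ≤ 27 * T + m := by linarith
        _ ≤ 27 * T + m * T := by nlinarith
        _ ≤ (m : ℝ) ^ 3 * T := by
            have h3 : 27 + (m : ℝ) ≤ (m : ℝ) ^ 3 := by
              have h5 : (28 : ℝ) ^ 2 ≤ (m : ℝ) ^ 2 := pow_le_pow_left₀ (by norm_num) hm28 2
              have h6 : (28 : ℝ) ^ 2 * m ≤ (m : ℝ) ^ 2 * m :=
                mul_le_mul_of_nonneg_right h5 (by linarith)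
              have h7 : (m : ℝ) ^ 2 * m = (m : ℝ) ^ 3 := by ring
              linarith
            nlinarith
        _ ≤ (m : ℝ) ^ 3 * (n : ℝ) ^ 3 := by gcongr
        _ = _ := by ring
    have h4 : |27 * t + u| ≤ ((m * n : ℕ) : ℤ) ^ 3 := by
      have : ((|27 * t + u| : ℤ) : ℝ) ≤ ((((m * n : ℕ) : ℤ) ^ 3 : ℤ) : ℝ) := by
        push_cast
        exact h1
      exact_mod_cast this
    exact h4
  · push_cast
    calc ((m : ℝ) * n) ^ 3 = (m : ℝ) ^ 3 * (n : ℝ) ^ 3 := by ring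
      _ ≤ (m : ℝ) ^ 3 * (2 * z) ^ 3 := by gcongr
      _ = 8 * (m : ℝ) ^ 3 * z ^ 3 := by ring
      _ = 8 * (m : ℝ) ^ 3 * T := by rw [hz3]

theorem cA_ne {b c : ℤ} (h : b ^ 2 ≠ 3 * c) : cA b c ≠ 0 := by
  unfold cA
  intro h0
  apply h
  omega

/-- **The average number of ideal classes of order two is bounded.** -/
theorem main_cl {b c : ℤ} (hbc : b ^ 2 ≠ 3 * c) : ∃ C : ℝ, 0 ≤ C ∧ ∀ T : ℝ, 1 ≤ T →
    ∀ (J : Finset ℤ) (K : ℤ → Type) [∀ t, Field (K t)] [∀ t, NumberField (K t)]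
    (η : ∀ t, 𝓞 (K t)), (∀ t ∈ J, |(t : ℝ)| ≤ T ∧ 0 < 4 * cA b c ^ 3 + 27 * cT b c t ^ 2 ∧
      Pb (K t) b c t (η t)) →
    ∑ t ∈ J, (Nat.card {x : ClassGroup (𝓞 (K t)) // x ^ 2 = 1} : ℝ) ≤ C * T := by
  obtain ⟨C₁, hC₁1, hC₁⟩ := bad_of2
  obtain ⟨K₀, hK₀, B₀, hB₀⟩ := cnI (cA_ne hbc) C₁ hC₁1
  obtain ⟨C, hC, hCB⟩ := ex_B (cA b c) (2 * b ^ 3 - 9 * b * c) B₀
  refine ⟨K₀ * C + 3, by positivity, fun T hT J K _ _ η hJ => ?_⟩
  obtain ⟨B, hB1, hB2, hB3, hB4⟩ := hCB T hT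
  -- the choice
  have hch : ∀ (t : ℤ) (x : ClassGroup (𝓞 (K t))), ∃ (I : (Ideal (𝓞 (K t)))⁰) (γ : 𝓞 (K t)),
      t ∈ J → x ^ 2 = 1 → ClassGroup.mk0 I = x ∧ γ ≠ 0 ∧
      (I : Ideal (𝓞 (K t))) * I = Ideal.span {γ} ∧ IsSquare (Algebra.norm ℚ ((γ : K t) / 9)) := by
    intro t x
    by_cases h : t ∈ J ∧ x ^ 2 = 1
    · obtain ⟨I, γ, h1⟩ := ex_cls (hJ t h.1).2.2.rank x h.2
      exact ⟨I, γ, fun _ _ => h1⟩
    · exact ⟨1, 0, fun h1 h2 => absurd ⟨h1, h2⟩ h⟩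
  choose I γ hIγ using hch
  obtain ⟨R, hR⟩ : ∃ R : ℤ → ℤ → (Σ t : ℤ, ClassGroup (𝓞 (K t))) → ℤ → ℤ → ℤ → ℤ → ℤ → Prop,
      ∀ P r y a b' c' d e, R P r y a b' c' d e ↔ (y.1 ∈ J ∧ y.2 ^ 2 = 1 ∧
        ∃ h : Pb (K y.1) b c y.1 (η y.1), Rel h.isGen3 ((γ y.1 y.2 : K y.1) / 9) P r a b' c' d e) :=
    ⟨_, fun _ _ _ _ _ _ _ _ => Iff.rfl⟩
  have hPr : ∀ P r : ℤ, (P, r) ∈ Pr C₁ → P ≠ 0 ∧ r ≠ 0 := by
    intro P r h
    unfold Pr at h
    rw [Finset.mem_filter, Finset.mem_product, Finset.mem_Icc, Finset.mem_Icc] at h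
    obtain ⟨⟨h1, h2, h3⟩, h4, h5⟩ := h
    simp only at h1 h2 h3 h4 h5
    exact ⟨h4, by omega⟩
  obtain ⟨Y, hY⟩ : ∃ Y : Finset (Σ t : ℤ, ClassGroup (𝓞 (K t))),
    Y = J.sigma fun t => Finset.univ.filter fun x => x ^ 2 = 1 ∧ x ≠ 1 := ⟨_, rfl⟩
  have hYc : (Y.card : ℝ) ≤ K₀ * (B : ℝ) ^ 3 := by
    refine hB₀ _ R ?_ B hB1 Y ?_
    · -- the separation
      rintro P r hPr' ⟨t, x⟩ ⟨t', x'⟩ a b' c' d e h1 h2
      rw [hR] at h1 h2
      obtain ⟨hP0, hr0⟩ := hPr P r hPr'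
      obtain ⟨hJ1, hx, hp, hrel⟩ := h1
      obtain ⟨hJ1', hx', hp', hrel'⟩ := h2
      simp only at hJ1 hx hp hrel hJ1' hx' hp' hrel'
      have htt : t = t' := by
        have e1 := hrel.1
        have e2 := hrel'.1
        rw [e1] at e2
        have e3 := mul_right_cancel₀ (mul_ne_zero hr0 (pow_ne_zero 3 hP0)) (neg_injective e2)
        unfold cT at e3
        omega
      subst htt
      obtain ⟨i1, i2, i3, -⟩ := hIγ t x hJ1 hx
      obtain ⟨j1, j2, j3, -⟩ := hIγ t x' hJ1 hx'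
      have k1 : ((γ t x : 𝓞 (K t)) : K t) ≠ 0 := by exact_mod_cast i2
      have k2 : ((γ t x' : 𝓞 (K t)) : K t) ≠ 0 := by exact_mod_cast j2
      obtain ⟨s, hs⟩ := sep hp.isGen3 (div_ne_zero k1 (by norm_num)) (div_ne_zero k2 (by norm_num))
        hP0 hr0 hrel hrel'
      have hs' : ((γ t x' : 𝓞 (K t)) : K t) = s ^ 2 * (γ t x : 𝓞 (K t)) := by
        field_simp at hs
        linear_combination hs
      have := cls i3 j3 i2 j2 hs'
      rw [i1, j1] at this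
      rw [this]
    · -- the tuples
      rintro ⟨t, x⟩ hy
      rw [hY, Finset.mem_sigma, Finset.mem_filter] at hy
      obtain ⟨hJ1, -, hx, hx1⟩ := hy
      simp only at hJ1 hx hx1
      obtain ⟨hT1, hd, hp⟩ := hJ t hJ1
      obtain ⟨i1, i2, i3, i4⟩ := hIγ t x hJ1 hx
      have k1 : ((γ t x : 𝓞 (K t)) : K t) ≠ 0 := by exact_mod_cast i2
      have hns : ¬ IsSquare (((γ t x : 𝓞 (K t)) : K t) / 9) := by
        rintro ⟨s, hs⟩
        apply hx1
        have h1 : ((γ t x : 𝓞 (K t)) : K t) = (3 * s) ^ 2 * ((1 : 𝓞 (K t)) : K t) := by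
          have e : (((1 : 𝓞 (K t))) : K t) = 1 := by simp
          rw [e]
          field_simp at hs
          linear_combination hs
        have h2 := cls (I := 1) (γ := 1) (by simp) i3 one_ne_zero i2 h1
        rw [i1, map_one] at h2
        exact h2.symm
      obtain ⟨P, r, hPr', k, hk⟩ := hC₁ (K t) (cA b c) (cT b c t) B _ hp.isGen3
        (((γ t x : 𝓞 (K t)) : K t) / 9) (Lm (I t x)) hd
        (ht_pol2 hB2 (by
          have := hB3 t hT1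
          unfold cT
          exact this)) (div_ne_zero k1 (by norm_num)) i4 (lat_of hp i3 i2) hns
      refine ⟨P, r, hPr', k, hk.1, ?_⟩
      obtain ⟨a, b', ha, hab⟩ := hk.2
      refine ⟨a, b', ha, fun m hm => ?_⟩
      obtain ⟨c', d, e, h1, h2, h3, h4, h5, h6, h7⟩ := hab m hm
      refine ⟨c', d, e, h1, h2, h3, h4, h5, h6, ?_⟩
      rw [hR]
      exact ⟨hJ1, hx, hp, h7⟩
  -- the sum
  have hsum : ∑ t ∈ J, (Nat.card {x : ClassGroup (𝓞 (K t)) // x ^ 2 = 1} : ℝ) =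
      J.card + Y.card := by
    have h1 : ∀ t ∈ J, (Nat.card {x : ClassGroup (𝓞 (K t)) // x ^ 2 = 1} : ℝ) =
        1 + ((Finset.univ.filter fun x : ClassGroup (𝓞 (K t)) => x ^ 2 = 1 ∧ x ≠ 1).card : ℝ) := by
      intro t _
      have h2 : Nat.card {x : ClassGroup (𝓞 (K t)) // x ^ 2 = 1} =
          (Finset.univ.filter fun x : ClassGroup (𝓞 (K t)) => x ^ 2 = 1).card := by
        rw [Nat.card_eq_fintype_card, Fintype.card_subtype]
      have h3 : (Finset.univ.filter fun x : ClassGroup (𝓞 (K t)) => x ^ 2 = 1) =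
          insert 1 (Finset.univ.filter fun x : ClassGroup (𝓞 (K t)) => x ^ 2 = 1 ∧ x ≠ 1) := by
        ext x
        simp only [Finset.mem_filter, Finset.mem_univ, true_and, Finset.mem_insert]
        constructor
        · intro h
          by_cases h1 : x = 1
          · exact Or.inl h1
          · exact Or.inr ⟨h, h1⟩
        · rintro (rfl | h)
          · simp
          · exact h.1
      rw [h2, h3, Finset.card_insert_of_notMem (by simp)]
      push_cast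
      ring
    rw [Finset.sum_congr rfl h1, Finset.sum_add_distrib, hY, Finset.card_sigma]
    push_cast
    simp
  have hJc : (J.card : ℝ) ≤ 3 * T := by
    have h1 : J ⊆ Finset.Icc (-⌊T⌋) ⌊T⌋ := by
      intro t ht
      obtain ⟨h2, -⟩ := hJ t ht
      have h3 := abs_le.1 h2
      rw [Finset.mem_Icc]
      constructor
      · have h4 : -t ≤ ⌊T⌋ := by
          rw [Int.le_floor]
          push_cast
          linarith
        omega
      · rw [Int.le_floor]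
        exact h3.2
    have h2 := Finset.card_le_card h1
    rw [Int.card_Icc] at h2
    have h3 : (0 : ℤ) ≤ ⌊T⌋ := Int.floor_nonneg.2 (by linarith)
    have h4 : ((J.card : ℤ)) ≤ 2 * ⌊T⌋ + 1 := by omega
    have h5 : (J.card : ℝ) ≤ 2 * (⌊T⌋ : ℝ) + 1 := by exact_mod_cast h4
    have h6 := Int.floor_le T
    linarith
  rw [hsum]
  calc (J.card : ℝ) + Y.card ≤ 3 * T + K₀ * (C * T) := by
        refine add_le_add hJc (hYc.trans ?_)
        gcongr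
    _ = _ := by ring

end Pool.Agent.V7H54.N
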