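import Pool.Agent.V7H54.A.Iso
import Mathlib.Analysis.Matrix.Spectrum

/-!
# The forms of the lattices over the integers are isotropic if the cubic polynomial has one real root
-/

set_option autoImplicit false
set_option linter.all false

open Polynomial Matrix NumberField
open scoped Classical

namespace Pool.Agent.V7H54.N

open Pool.Agent.V7H54.A
open Pool.Agent.N783.PQ (chp)
open Pool.Agent.N783.PF
open Pool.Agent.N352.PJ (Mt)

/-- The characteristic polynomial of a real symmetric matrix has real roots. -/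
theorem herm_disc {M : Matrix (Fin 3) (Fin 3) ℝ} (hM : M.IsSymm) {a t : ℝ}
    (h : M.charpoly = X ^ 3 + C a * X + C t) : 4 * a ^ 3 + 27 * t ^ 2 ≤ 0 := by
  have hH : M.IsHermitian := by
    unfold Matrix.IsHermitian
    rw [Matrix.conjTranspose_eq_transpose_of_trivial]
    exact hM
  have h1 := hH.charpoly_eq
  rw [h, Fin.prod_univ_three] at h1
  obtain ⟨x, hx⟩ : ∃ x : Fin 3 → ℝ, ∀ i, x i = hH.eigenvalues i := ⟨_, fun _ => rfl⟩
  simp only [RCLike.ofReal_real_eq_id, id_eq, ← hx] at h1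
  have hev : ∀ z : ℝ, z ^ 3 + a * z + t = (z - x 0) * (z - x 1) * (z - x 2) := by
    intro z
    have := congrArg (Polynomial.eval z) h1
    simpa using this
  have e0 := hev 0
  have e1 := hev 1
  have e2 := hev (-1)
  have hs : x 0 + x 1 + x 2 = 0 := by linarith
  have hx2 : x 2 = -x 0 - x 1 := by linarith
  have ht : t = -(x 0 * x 1 * x 2) := by linarith
  have ha : a = x 0 * x 1 + x 0 * x 2 + x 1 * x 2 := by linarith
  rw [ha, ht, hx2]
  have : 4 * (x 0 * x 1 + x 0 * (-x 0 - x 1) + x 1 * (-x 0 - x 1)) ^ 3 +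
      27 * (-(x 0 * x 1 * (-x 0 - x 1))) ^ 2 =
      -((x 0 - x 1) * (2 * x 0 + x 1) * (x 0 + 2 * x 1)) ^ 2 := by ring
  rw [this]
  exact neg_nonpos.2 (sq_nonneg _)

section lat

variable {L : Type} [Field L] [NumberField L] [Algebra ℚ L] {A t : ℤ} {θ : L}
  {α : L} {Λ : Submodule (𝓞 ℚ) L}

/-- **The form has an isotropic vector.** -/
theorem iso2 (hA : 0 < 4 * A ^ 3 + 27 * t ^ 2) (hG : IsGen 1 (pol A t) θ) (hα : α ≠ 0)
    (hN : IsSquare (Algebra.norm ℚ α)) (hL : Lat hG α Λ) :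
    ∃ x ∈ Λ, x ≠ 0 ∧ hG.top (x * x / α) = 0 := by
  obtain ⟨b, hbm, hli, G, hGG, hdet⟩ := unim hG hα hN hL
  have hch : ∀ x y : Λ, ∃ n : ℤ, (n : ℚ) = hG.top ((x : L) * y / α) := fun x y =>
    exists_int hG hL x.2 y.2
  choose β hβ using hch
  have hadd : ∀ x y z : Λ, β (x + y) z = β x z + β y z := by
    intro x y z
    have : ((β (x + y) z : ℤ) : ℚ) = ((β x z + β y z : ℤ) : ℚ) := by
      rw [hβ, Int.cast_add, hβ, hβ, ← Pool.Agent.V7H54.A.top_add]
      congr 1
      push_cast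
      ring
    exact_mod_cast this
  have hsymm : ∀ x y : Λ, β x y = β y x := by
    intro x y
    have : ((β x y : ℤ) : ℚ) = ((β y x : ℤ) : ℚ) := by
      rw [hβ, hβ, mul_comm]
    exact_mod_cast this
  have hβG : ∀ i j, β ⟨b i, hbm i⟩ ⟨b j, hbm j⟩ = G i j := by
    intro i j
    have : ((β ⟨b i, hbm i⟩ ⟨b j, hbm j⟩ : ℤ) : ℚ) = ((G i j : ℤ) : ℚ) := by
      rw [hβ, hGG]
    exact_mod_cast this
  have hex : ∃ x y z : Λ, gd β x y z = -1 := by
    refine ⟨⟨b 0, hbm 0⟩, ⟨b 1, hbm 1⟩, ⟨b 2, hbm 2⟩, ?_⟩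
    rw [Matrix.det_fin_three] at hdet
    unfold gd
    rw [hβG, hβG, hβG, hβG, hβG, hβG]
    have s1 : G 1 0 = G 0 1 := by rw [← hβG, ← hβG, hsymm]
    have s2 : G 2 0 = G 0 2 := by rw [← hβG, ← hβG, hsymm]
    have s3 : G 2 1 = G 1 2 := by rw [← hβG, ← hβG, hsymm]
    rw [s1, s2, s3] at hdet
    linarith
  rcases herm β hadd hsymm hex with ⟨x, hx0, hx⟩ | ⟨x, y, z, h1, h2, h3, h4, h5, h6⟩
  · refine ⟨x, x.2, fun h => hx0 (Subtype.ext h), ?_⟩
    rw [← hβ, hx, Int.cast_zero]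
  · exfalso
    obtain ⟨e, he⟩ : ∃ e : Fin 3 → Λ, e = ![x, y, z] := ⟨_, rfl⟩
    have e0 : e 0 = x := by rw [he]; rfl
    have e1 : e 1 = y := by rw [he]; rfl
    have e2 : e 2 = z := by rw [he]; rfl
    have hee : ∀ i j, β (e i) (e j) = (-1 : Matrix (Fin 3) (Fin 3) ℤ) i j := by
      intro i j
      fin_cases i <;> fin_cases j <;>
        simp [e0, e1, e2, h1, h2, h3, h4, h5, h6, hsymm y x, hsymm z x, hsymm z y]
    have hli' : LinearIndependent ℚ fun i => (e i : L) := by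
      refine li_of_gram (α := α) hG (G := -1) (fun i j => ?_) ?_
      · rw [← hee, hβ]
      · rw [Matrix.det_neg]
        simp
    obtain ⟨A', B', hGr, -, hBs, -, hchp, -⟩ := Pool.Agent.N614.PF.chi 1 ℚ L (pol A t) θ hG α Λ
      (fun i => (e i : L)) (pol_c2 A t) hα hL (fun i => (e i).2) hli'
    have hA' : mF A' = -1 := by
      ext i j
      show ((A' i j : 𝓞 ℚ) : ℚ) = (-1 : Matrix (Fin 3) (Fin 3) ℚ) i j
      have := hGr.gA i j
      rw [← hβ, hee] at this
      refine this.trans ?_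
      by_cases hij : i = j
      · subst hij
        simp
      · simp [hij]
    have hinv : (mF A')⁻¹ = -1 := by
      rw [hA']
      refine Matrix.inv_eq_right_inv ?_
      simp
    unfold chp at hchp
    rw [hinv, fF_pol] at hchp
    have hs : ∀ i j, B' i j = B' j i := fun i j => by
      rw [← Matrix.transpose_apply B' i j, hBs.eq]
    obtain ⟨M, hMd⟩ : ∃ M : Matrix (Fin 3) (Fin 3) ℝ,
      M = ((-1 : Matrix (Fin 3) (Fin 3) ℚ) * mF B').map (Rat.castHom ℝ) := ⟨_, rfl⟩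
    have hMs : M.IsSymm := by
      rw [hMd]
      refine Matrix.IsSymm.ext fun i j => ?_
      rw [Matrix.map_apply, Matrix.map_apply, neg_one_mul, Matrix.neg_apply, Matrix.neg_apply]
      congr 2
      show ((B' j i : 𝓞 ℚ) : ℚ) = ((B' i j : 𝓞 ℚ) : ℚ)
      rw [hs]
    have hMc : M.charpoly = X ^ 3 + C (A : ℝ) * X + C (t : ℝ) := by
      rw [hMd, Matrix.charpoly_map]
      have h9 : ((-1 : Matrix (Fin 3) (Fin 3) ℚ) * mF B').charpoly =
        X ^ 3 + C (A : ℚ) * X + C (t : ℚ) := hchp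
      rw [h9]
      simp
    have h10 := herm_disc hMs hMc
    have h11 : (0 : ℝ) < 4 * A ^ 3 + 27 * t ^ 2 := by exact_mod_cast hA
    linarith

end lat

end Pool.Agent.V7H54.N
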