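import Pool.Agent.V7H54.N.GnN

/-!
# Cubic fields with a power basis: ideal classes of order two
-/

set_option autoImplicit false
set_option linter.all false

open Polynomial Matrix NumberField IsDedekindDomain nonZeroDivisors
open scoped Classical

namespace Pool.Agent.V7H54.N

open Pool.Agent.V7H54.A
open Pool.Agent.N783.PF
open Pool.Agent.N862.PF (int_iff)

section fld

variable {K : Type} [Field K] [NumberField K] {b c t : ℤ} {η γ : 𝓞 K}

theorem frac_sq {I : Ideal (𝓞 K)} (hI : I * I = Ideal.span {γ}) :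
    (I : FractionalIdeal (𝓞 K)⁰ K) * I = FractionalIdeal.spanSingleton (𝓞 K)⁰ (γ : K) := by
  rw [← FractionalIdeal.coeIdeal_mul, hI, FractionalIdeal.coeIdeal_span_singleton]

theorem prod_int {I : Ideal (𝓞 K)} (hI : I * I = Ideal.span {γ}) (hγ : γ ≠ 0) {x y : K}
    (hx : x ∈ (I : FractionalIdeal (𝓞 K)⁰ K)) (hy : y ∈ (I : FractionalIdeal (𝓞 K)⁰ K)) :
    IsIntegral ℤ (x * y / γ) := by
  have hγ' : (γ : K) ≠ 0 := by exact_mod_cast hγ
  have h1 : x * y ∈ FractionalIdeal.spanSingleton (𝓞 K)⁰ (γ : K) := by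
    rw [← frac_sq hI]
    exact FractionalIdeal.mul_mem_mul hx hy
  obtain ⟨z, hz⟩ := (FractionalIdeal.mem_spanSingleton _).1 h1
  rw [← hz, Algebra.smul_def, mul_div_cancel_right₀ _ hγ']
  exact (int_iff _).2 ⟨z, rfl⟩

theorem dual_int {I : Ideal (𝓞 K)} (hI : I * I = Ideal.span {γ}) (hγ : γ ≠ 0) {y : K}
    (hy : ∀ x ∈ (I : FractionalIdeal (𝓞 K)⁰ K), IsIntegral ℤ (x * y / γ)) :
    y ∈ (I : FractionalIdeal (𝓞 K)⁰ K) := by
  have hγ' : (γ : K) ≠ 0 := by exact_mod_cast hγ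
  obtain ⟨J, hJ⟩ : ∃ J : FractionalIdeal (𝓞 K)⁰ K, J = (I : FractionalIdeal (𝓞 K)⁰ K) := ⟨_, rfl⟩
  have hII := frac_sq hI
  rw [← hJ] at hII hy ⊢
  have h0 : J ≠ 0 := by
    intro h0
    rw [h0, mul_zero] at hII
    exact hγ' (FractionalIdeal.spanSingleton_eq_zero_iff.1 hII.symm)
  have h1 : FractionalIdeal.spanSingleton (𝓞 K)⁰ y * J ≤ J * J := by
    rw [FractionalIdeal.mul_le]
    intro u hu w hw
    rw [hII]
    obtain ⟨z, hz⟩ := (FractionalIdeal.mem_spanSingleton _).1 hu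
    obtain ⟨z', hz'⟩ := (int_iff _).1 (hy w hw)
    refine (FractionalIdeal.mem_spanSingleton _).2 ⟨z * z', ?_⟩
    rw [← hz, Algebra.smul_def, Algebra.smul_def, map_mul, hz']
    field_simp
  have h3 : FractionalIdeal.spanSingleton (𝓞 K)⁰ y ≤ J := by
    have := mul_le_mul_left h1 J⁻¹
    rwa [mul_assoc, mul_inv_cancel₀ h0, mul_assoc, mul_inv_cancel₀ h0, mul_one, mul_one] at this
  exact FractionalIdeal.spanSingleton_le_iff_mem.1 h3

theorem mem_iff {I : Ideal (𝓞 K)} (hI : I * I = Ideal.span {γ}) (hγ : γ ≠ 0) (x : K) :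
    x ∈ (I : FractionalIdeal (𝓞 K)⁰ K) ↔ IsIntegral ℤ (x ^ 2 / γ) := by
  have hγ' : (γ : K) ≠ 0 := by exact_mod_cast hγ
  constructor
  · intro hx
    rw [sq]
    exact prod_int hI hγ hx hx
  · intro hx
    refine dual_int hI hγ fun w hw => ?_
    have h1 : IsIntegral ℤ ((w * x / γ) ^ 2) := by
      have h2 : (w * x / γ) ^ 2 = (w * w / (γ : K)) * (x ^ 2 / γ) := by
        field_simp
      rw [h2]
      exact (prod_int hI hγ hw hw).mul hx
    exact IsIntegral.of_pow two_pos h1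

/-- The lattice of an ideal. -/
noncomputable def Lm [Algebra ℚ K] (I : Ideal (𝓞 K)) : Submodule (𝓞 ℚ) K :=
  ((I : FractionalIdeal (𝓞 K)⁰ K) : Submodule (𝓞 K) K).restrictScalars (𝓞 ℚ)

theorem lat_of [Algebra ℚ K] (h : Pb K b c t η) {I : Ideal (𝓞 K)} (hI : I * I = Ideal.span {γ})
    (hγ : γ ≠ 0) : Lat h.isGen3 ((γ : K) / 9) (Lm I) := by
  have hγ' : (γ : K) ≠ 0 := by exact_mod_cast hγ
  obtain ⟨J, hJ⟩ : ∃ J : FractionalIdeal (𝓞 K)⁰ K, J = (I : FractionalIdeal (𝓞 K)⁰ K) := ⟨_, rfl⟩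
  have hΛ : ∀ x : K, x ∈ Lm I ↔ x ∈ J := fun x => by
    rw [hJ]
    exact Iff.rfl
  have hII := frac_sq hI
  rw [← hJ] at hII
  have h0 : J ≠ 0 := by
    intro h0
    rw [h0, mul_zero] at hII
    exact hγ' (FractionalIdeal.spanSingleton_eq_zero_iff.1 hII.symm)
  have htop : ∀ z : K, h.isGen3.top (z / ((γ : K) / 9)) = h.isGen.top (z / γ) := by
    intro z
    rw [h.top9]
    have e : z / ((γ : K) / 9) = (9 : ℚ) • (z / γ) := by
      rw [Algebra.smul_def, map_ofNat]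
      field_simp
    rw [e, map_smul, smul_eq_mul]
    ring
  constructor
  · haveI : IsNoetherian (𝓞 K) (J : Submodule (𝓞 K) K) := FractionalIdeal.isNoetherian J
    haveI : Module.Finite (𝓞 K) (J : Submodule (𝓞 K) K) := inferInstance
    haveI h2 : Module.Finite (𝓞 ℚ) (J : Submodule (𝓞 K) K) := Module.Finite.trans (𝓞 K) _
    haveI h3 : Module.Finite (𝓞 ℚ) (Lm I) := by
      unfold Lm
      rw [← hJ]
      exact h2
    exact Module.Finite.iff_fg.1 h3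
  · intro x
    obtain ⟨y, hy, hy0⟩ : ∃ y ∈ J, y ≠ 0 := by
      by_contra hcon
      push Not at hcon
      apply h0
      rw [FractionalIdeal.eq_zero_iff]
      exact hcon
    have halg : IsAlgebraic ℤ (x / y) :=
      (IsFractionRing.isAlgebraic_iff ℤ ℚ K).2 (Algebra.IsAlgebraic.isAlgebraic (x / y))
    obtain ⟨n, hn0, hn⟩ := halg.exists_integral_multiple
    refine ⟨(n : 𝓞 ℚ), by exact_mod_cast hn0, ?_⟩
    rw [hΛ]
    obtain ⟨z, hz⟩ := (int_iff _).1 hn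
    have h4 : (n : 𝓞 ℚ) • x = z • y := by
      rw [Algebra.smul_def, Algebra.smul_def, hz]
      rw [zsmul_eq_mul, map_intCast]
      field_simp
    rw [h4]
    exact Submodule.smul_mem (J : Submodule (𝓞 K) K) z hy
  · intro x hx
    rw [hΛ] at hx ⊢
    have e : (3 * (η : K) + b) * x = (3 * η + b : 𝓞 K) • x := by
      rw [Algebra.smul_def, map_add, map_mul, map_ofNat, map_intCast]
    rw [e]
    exact Submodule.smul_mem (J : Submodule (𝓞 K) K) _ hx
  · intro x hx y hy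
    rw [hΛ, hJ] at hx hy
    rw [htop]
    exact Pool.Agent.N862.PF.top_int h.isGen h.hint (prod_int hI hγ hx hy)
  · intro y hy
    rw [hΛ, hJ]
    refine dual_int hI hγ fun x hx => ?_
    refine Pool.Agent.N862.PF.int_of_top h.isGen h.hint fun m _ => ?_
    have h5 : x * y / γ * (η : K) ^ m = (η ^ m • x) * y / γ := by
      rw [Algebra.smul_def, map_pow]
      ring
    rw [h5, ← htop]
    refine hy _ ?_
    rw [hΛ, hJ]
    exact Submodule.smul_mem ((I : FractionalIdeal (𝓞 K)⁰ K) : Submodule (𝓞 K) K) (η ^ m) hx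

theorem cls {I I' : (Ideal (𝓞 K))⁰} {γ' : 𝓞 K} (hI : (I : Ideal (𝓞 K)) * I = Ideal.span {γ})
    (hI' : (I' : Ideal (𝓞 K)) * I' = Ideal.span {γ'}) (hγ : γ ≠ 0) (hγ' : γ' ≠ 0) {s : K}
    (hs : (γ' : K) = s ^ 2 * γ) : ClassGroup.mk0 I = ClassGroup.mk0 I' := by
  have hγK : (γ : K) ≠ 0 := by exact_mod_cast hγ
  have hγK' : (γ' : K) ≠ 0 := by exact_mod_cast hγ'
  have hs0 : s ≠ 0 := by
    rintro rfl
    apply hγK'
    rw [hs]
    ring
  obtain ⟨u, v, hv, huv⟩ := IsFractionRing.div_surjective (A := 𝓞 K) s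
  have hv0 : v ≠ 0 := nonZeroDivisors.ne_zero hv
  have hvK : (v : K) ≠ 0 := by exact_mod_cast hv0
  have huv' : (u : K) / v = s := huv
  have hu0 : u ≠ 0 := by
    rintro rfl
    apply hs0
    rw [← huv']
    simp
  have huK : (u : K) ≠ 0 := by exact_mod_cast hu0
  have hmem : ∀ x : K, x ∈ (((I' : Ideal (𝓞 K))) : FractionalIdeal (𝓞 K)⁰ K) ↔
      x / s ∈ ((I : Ideal (𝓞 K)) : FractionalIdeal (𝓞 K)⁰ K) := by
    intro x
    rw [mem_iff hI' hγ', mem_iff hI hγ, hs]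
    have e : x ^ 2 / (s ^ 2 * γ) = (x / s) ^ 2 / (γ : K) := by field_simp
    rw [e]
  rw [ClassGroup.mk0_eq_mk0_iff]
  refine ⟨u, v, hu0, hv0, ?_⟩
  ext z
  rw [Ideal.mem_span_singleton_mul, Ideal.mem_span_singleton_mul]
  constructor
  · rintro ⟨w, hw, rfl⟩
    have h1 : ((w : K) * s) ∈ (((I' : Ideal (𝓞 K))) : FractionalIdeal (𝓞 K)⁰ K) := by
      rw [hmem, mul_div_cancel_right₀ _ hs0]
      exact (FractionalIdeal.mem_coeIdeal _).2 ⟨w, hw, rfl⟩
    obtain ⟨w', hw', hww⟩ := (FractionalIdeal.mem_coeIdeal _).1 h1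
    refine ⟨w', hw', ?_⟩
    have h2 : algebraMap (𝓞 K) K (v * w') = algebraMap (𝓞 K) K (u * w) := by
      rw [map_mul, map_mul, hww, ← huv]
      field_simp
    exact RingOfIntegers.coe_injective h2
  · rintro ⟨w, hw, rfl⟩
    have h1 : ((w : K) / s) ∈ (((I : Ideal (𝓞 K))) : FractionalIdeal (𝓞 K)⁰ K) := by
      rw [← hmem]
      exact (FractionalIdeal.mem_coeIdeal _).2 ⟨w, hw, rfl⟩
    obtain ⟨w', hw', hww⟩ := (FractionalIdeal.mem_coeIdeal _).1 h1
    refine ⟨w', hw', ?_⟩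
    have h2 : algebraMap (𝓞 K) K (u * w') = algebraMap (𝓞 K) K (v * w) := by
      rw [map_mul, map_mul, hww, ← huv]
      field_simp
    exact RingOfIntegers.coe_injective h2

theorem norm_neg' (hd : Module.finrank ℚ K = 3) (x : K) :
    Algebra.norm ℚ (-x) = -Algebra.norm ℚ x := by
  have e : -x = algebraMap ℚ K (-1) * x := by simp
  rw [e, map_mul, Algebra.norm_algebraMap, hd]
  ring

/-- the choice of a generator -/
theorem ex_cls (hd : Module.finrank ℚ K = 3) (x : ClassGroup (𝓞 K)) (hx : x ^ 2 = 1) :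
    ∃ (I : (Ideal (𝓞 K))⁰) (γ : 𝓞 K), ClassGroup.mk0 I = x ∧ γ ≠ 0 ∧
      (I : Ideal (𝓞 K)) * I = Ideal.span {γ} ∧ IsSquare (Algebra.norm ℚ ((γ : K) / 9)) := by
  obtain ⟨I, rfl⟩ := ClassGroup.mk0_surjective x
  have h1 : ClassGroup.mk0 (I * I) = 1 := by rw [map_mul, ← sq, hx]
  rw [ClassGroup.mk0_eq_one_iff] at h1
  obtain ⟨γ, hγ⟩ := h1
  have hγ' : (I : Ideal (𝓞 K)) * I = Ideal.span {γ} := hγ
  have hI0 : (I : Ideal (𝓞 K)) ≠ 0 := nonZeroDivisors.ne_zero I.2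
  have hγ0 : γ ≠ 0 := by
    rintro rfl
    rw [Ideal.span_singleton_eq_bot.2 rfl] at hγ'
    exact hI0 (mul_self_eq_zero.1 hγ')
  have hn : Ideal.absNorm (I : Ideal (𝓞 K)) ^ 2 = (Algebra.norm ℤ γ).natAbs := by
    rw [← Ideal.absNorm_span_singleton, ← hγ', map_mul, sq]
  have hn' : |Algebra.norm ℚ (γ : K)| = (Ideal.absNorm (I : Ideal (𝓞 K)) : ℚ) ^ 2 := by
    rw [← Algebra.coe_norm_int, ← Int.cast_abs, Int.abs_eq_natAbs, ← hn]
    push_cast
    rfl
  have h9 : ∀ z : K, Algebra.norm ℚ (z / 9) = Algebra.norm ℚ z / 27 ^ 2 := by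
    intro z
    have e : z / 9 = algebraMap ℚ K (1 / 9) * z := by
      rw [map_div₀, map_one, map_ofNat]
      ring
    rw [e, map_mul, Algebra.norm_algebraMap, hd]
    norm_num
    ring
  rcases le_or_gt 0 (Algebra.norm ℚ (γ : K)) with hpos | hneg
  · refine ⟨I, γ, rfl, hγ0, hγ', (Ideal.absNorm (I : Ideal (𝓞 K)) : ℚ) / 27, ?_⟩
    rw [h9]
    rw [abs_of_nonneg hpos] at hn'
    rw [hn']
    ring
  · refine ⟨I, -γ, rfl, neg_ne_zero.2 hγ0, ?_, (Ideal.absNorm (I : Ideal (𝓞 K)) : ℚ) / 27, ?_⟩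
    · rw [Ideal.span_singleton_neg]
      exact hγ'
    · rw [h9]
      have e : (((-γ : 𝓞 K)) : K) = -(γ : K) := by push_cast; rfl
      rw [e, norm_neg' hd]
      rw [abs_of_neg hneg] at hn'
      rw [hn']
      ring

end fld

end Pool.Agent.V7H54.N
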