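import Pool.Agent.V7H54.N.SepN
import Pool.Agent.N862.PF.SD

/-!
# Cubic fields with a power basis: the generators
-/

set_option autoImplicit false
set_option linter.all false

open Polynomial Matrix NumberField IsDedekindDomain nonZeroDivisors
open scoped Classical

namespace Pool.Agent.V7H54.N

open Pool.Agent.V7H54.A
open Pool.Agent.N783.PF

/-- The polynomial `X ^ 3 + b X ^ 2 + c X + t`. -/
noncomputable def pl (b c t : ℤ) : (𝓞 ℚ)[X] :=
  X ^ 3 + C (b : 𝓞 ℚ) * X ^ 2 + C (c : 𝓞 ℚ) * X + C (t : 𝓞 ℚ)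

theorem pl_mon (b c t : ℤ) : (pl b c t).Monic := by
  unfold pl
  monicity!

theorem pl_deg (b c t : ℤ) : (pl b c t).natDegree = 2 * 1 + 1 := by
  unfold pl
  compute_degree!

/-- `A'` -/
def cA (b c : ℤ) : ℤ := 9 * c - 3 * b ^ 2

/-- `t'` -/
def cT (b c t : ℤ) : ℤ := 27 * t + (2 * b ^ 3 - 9 * b * c)

section fld

variable {K : Type} [Field K] [NumberField K] {b c t : ℤ} {η : 𝓞 K}

/-- `K` is a cubic field and `1`, `η`, `η ^ 2` is an integral basis. -/
structure Pb (K : Type) [Field K] [NumberField K] (b c t : ℤ) (η : 𝓞 K) : Prop where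
  rank : Module.finrank ℚ K = 3
  root : η ^ 3 + b * η ^ 2 + c * η + t = 0
  gen : Algebra.adjoin ℤ {η} = ⊤

theorem Pb.ex (h : Pb K b c t η) (x : 𝓞 K) : ∃ v : Fin 3 → ℤ, x = ∑ i, (v i : 𝓞 K) * η ^ (i : ℕ) := by
  have hx : x ∈ Algebra.adjoin ℤ {η} := by rw [h.gen]; trivial
  rw [Algebra.adjoin_singleton_eq_range_aeval] at hx
  obtain ⟨g, hg⟩ := hx
  obtain ⟨p, hp⟩ : ∃ p : ℤ[X], p = X ^ 3 + C b * X ^ 2 + C c * X + C t := ⟨_, rfl⟩
  have hpm : p.Monic := by rw [hp]; monicity!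
  have hpd : p.natDegree = 3 := by rw [hp]; compute_degree!
  have hroot : aeval η p = 0 := by
    rw [hp]
    simp only [map_add, map_mul, map_pow, aeval_X, aeval_C]
    simpa using h.root
  have h1 : aeval η (g %ₘ p) = x := by
    rw [aeval_modByMonic_eq_self_of_root hroot]
    exact hg
  have h2 : (g %ₘ p).natDegree < 3 := by
    have := natDegree_modByMonic_lt g hpm (by
      intro h1
      rw [h1, natDegree_one] at hpd
      omega)
    omega
  refine ⟨fun i => (g %ₘ p).coeff i, ?_⟩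
  rw [← h1, aeval_eq_sum_range' h2, Finset.sum_range]
  refine Finset.sum_congr rfl fun i _ => ?_
  rw [zsmul_eq_mul]

theorem Pb.isGen [Algebra ℚ K] (h : Pb K b c t η) : IsGen 1 (pl b c t) (η : K) := by
  refine ⟨pl_mon _ _ _, pl_deg _ _ _, ?_, ?_, fun x => ?_⟩
  · have h1 : fF (pl b c t) = X ^ 3 + C (b : ℚ) * X ^ 2 + C (c : ℚ) * X + C (t : ℚ) := by
      unfold pl fF
      simp
    rw [h1]
    have h2 := congrArg (algebraMap (𝓞 K) K) h.root
    simp only [map_add, map_mul, map_pow, map_intCast, map_zero] at h2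
    simp only [map_add, map_mul, map_pow, aeval_X, aeval_C]
    simpa using h2
  · have hinst : ‹Algebra ℚ K› = DivisionRing.toRatAlgebra := Subsingleton.elim _ _
    subst hinst
    exact h.rank
  · have halg : IsAlgebraic ℤ x :=
      (IsFractionRing.isAlgebraic_iff ℤ ℚ K).2 (Algebra.IsAlgebraic.isAlgebraic x)
    obtain ⟨n, hn0, hn⟩ := halg.exists_integral_multiple
    obtain ⟨z, hz⟩ := (Pool.Agent.N862.PF.int_iff _).1 hn
    obtain ⟨v, hv⟩ := h.ex z
    refine ⟨fun i => (v i : ℚ) / n, ?_⟩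
    have hn0' : (n : K) ≠ 0 := by exact_mod_cast hn0
    have h3 : (n : K) * x = ∑ i : Fin 3, (v i : K) * (η : K) ^ (i : ℕ) := by
      have h4 : (n : K) * x = n • x := (zsmul_eq_mul x n).symm
      rw [h4, ← hz, hv]
      simp
    have h5 : x = (n : K)⁻¹ * ∑ i : Fin 3, (v i : K) * (η : K) ^ (i : ℕ) := by
      rw [← h3]
      field_simp
    rw [h5, Finset.mul_sum]
    refine Finset.sum_congr rfl fun i _ => ?_
    simp
    ring

theorem Pb.hint [Algebra ℚ K] (h : Pb K b c t η) (x : K) : IsIntegral ℤ x ↔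
    ∃ v : Fin (2 * 1 + 1) → 𝓞 ℚ, x = ∑ i, algebraMap ℚ K (v i : ℚ) * (η : K) ^ (i : ℕ) := by
  constructor
  · intro hx
    obtain ⟨z, hz⟩ := (Pool.Agent.N862.PF.int_iff _).1 hx
    obtain ⟨v, hv⟩ := h.ex z
    refine ⟨fun i => (v i : 𝓞 ℚ), ?_⟩
    rw [← hz, hv, map_sum]
    refine Finset.sum_congr rfl fun i _ => ?_
    simp
  · rintro ⟨v, rfl⟩
    refine IsIntegral.sum _ fun i _ => ?_
    refine IsIntegral.mul ?_ ((RingOfIntegers.isIntegral_coe η).pow _)
    exact ((RingOfIntegers.isIntegral_coe (v i)).map (algebraMap ℚ K).toIntAlgHom)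

/-- the generator with trace zero -/
theorem Pb.isGen3 [Algebra ℚ K] (h : Pb K b c t η) :
    IsGen 1 (pol (cA b c) (cT b c t)) (3 * (η : K) + b) := by
  have hG := h.isGen
  refine ⟨pol_mon _ _, pol_deg _ _, ?_, hG.rank, fun x => ?_⟩
  · rw [fF_pol]
    have h2 := congrArg (algebraMap (𝓞 K) K) h.root
    simp only [map_add, map_mul, map_pow, map_intCast, map_zero] at h2
    simp only [map_add, map_mul, map_pow, aeval_X, aeval_C, map_intCast]
    unfold cA cT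
    push_cast
    linear_combination 27 * h2
  · obtain ⟨v, hv⟩ := hG.gen x
    refine ⟨![v 0 - v 1 * b / 3 + v 2 * b ^ 2 / 9, v 1 / 3 - 2 * b * v 2 / 9, v 2 / 9], ?_⟩
    rw [hv, Fin.sum_univ_three, Fin.sum_univ_three]
    have e0 : (![v 0 - v 1 * b / 3 + v 2 * b ^ 2 / 9, v 1 / 3 - 2 * b * v 2 / 9, v 2 / 9] :
      Fin 3 → ℚ) 0 = v 0 - v 1 * b / 3 + v 2 * b ^ 2 / 9 := rfl
    have e1 : (![v 0 - v 1 * b / 3 + v 2 * b ^ 2 / 9, v 1 / 3 - 2 * b * v 2 / 9, v 2 / 9] :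
      Fin 3 → ℚ) 1 = v 1 / 3 - 2 * b * v 2 / 9 := rfl
    have e2 : (![v 0 - v 1 * b / 3 + v 2 * b ^ 2 / 9, v 1 / 3 - 2 * b * v 2 / 9, v 2 / 9] :
      Fin 3 → ℚ) 2 = v 2 / 9 := rfl
    rw [e0, e1, e2]
    have f0 : ((0 : Fin 3) : ℕ) = 0 := rfl
    have f1 : ((1 : Fin 3) : ℕ) = 1 := rfl
    have f2 : ((2 : Fin 3) : ℕ) = 2 := rfl
    rw [f0, f1, f2]
    simp only [map_add, map_sub, map_mul, map_div₀, map_pow, map_intCast, map_ofNat]
    ring

/-- the relation of the two functionals -/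
theorem Pb.top9 [Algebra ℚ K] (h : Pb K b c t η) (z : K) :
    h.isGen3.top z = h.isGen.top z / 9 := by
  have hG := h.isGen
  obtain ⟨v, hv⟩ := hG.gen z
  have h1 : h.isGen.top z = v 2 := by
    rw [hv, Fin.sum_univ_three]
    have f0 : ((0 : Fin 3) : ℕ) = 0 := rfl
    have f1 : ((1 : Fin 3) : ℕ) = 1 := rfl
    have f2 : ((2 : Fin 3) : ℕ) = 2 := rfl
    rw [f0, f1, f2, ← Algebra.smul_def, ← Algebra.smul_def, ← Algebra.smul_def, map_add, map_add,
      map_smul, map_smul, map_smul,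
      Pool.Agent.N862.PF.top_pow h.isGen 0 (by omega), Pool.Agent.N862.PF.top_pow h.isGen 1 (by omega),
      Pool.Agent.N862.PF.top_pow h.isGen 2 (by omega)]
    simp
  have h2 : z = (v 0 - v 1 * b / 3 + v 2 * b ^ 2 / 9 : ℚ) • (3 * (η : K) + b) ^ 0 +
      (v 1 / 3 - 2 * b * v 2 / 9 : ℚ) • (3 * (η : K) + b) ^ 1 +
      (v 2 / 9 : ℚ) • (3 * (η : K) + b) ^ 2 := by
    rw [hv, Fin.sum_univ_three, Algebra.smul_def, Algebra.smul_def, Algebra.smul_def]
    have f0 : ((0 : Fin 3) : ℕ) = 0 := rfl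
    have f1 : ((1 : Fin 3) : ℕ) = 1 := rfl
    have f2 : ((2 : Fin 3) : ℕ) = 2 := rfl
    rw [f0, f1, f2]
    simp only [map_add, map_sub, map_mul, map_div₀, map_pow, map_intCast, map_ofNat]
    ring
  rw [h1, h2, map_add, map_add, map_smul, map_smul, map_smul,
      Pool.Agent.N862.PF.top_pow h.isGen3 0 (by omega), Pool.Agent.N862.PF.top_pow h.isGen3 1 (by omega),
      Pool.Agent.N862.PF.top_pow h.isGen3 2 (by omega)]
  simp

end fld

end Pool.Agent.V7H54.N
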