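import Pool.Agent.V7H54.N.BasN
import Pool.Agent.V7H54.N.CnN
import Pool.Agent.V7H54.A.Qu

/-!
# From a lattice to many quintuples, and back to the square class
-/

set_option autoImplicit false
set_option linter.all false

open Polynomial Matrix NumberField
open scoped Classical

namespace Pool.Agent.V7H54.N

open Pool.Agent.V7H54.A
open Pool.Agent.N783.PQ (chp Dist)
open Pool.Agent.N783.PF
open Pool.Agent.N352.PJ (Mt Typ)

section lat

variable {L : Type} [Field L] [NumberField L] [Algebra ℚ L] {A t : ℤ} {θ : L}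
  {α : L} {Λ : Submodule (𝓞 ℚ) L}

/-- the matrix of a quintuple -/
def hm (a b c d e β : ℤ) : Matrix (Fin 3) (Fin 3) ℤ := !![a, b, c; b, β, d; c, d, e]

/-- The quintuple comes from `α`. -/
def Rel (hG : IsGen 1 (pol A t) θ) (α : L) (P r a b c d e : ℤ) : Prop :=
  P * (a * d ^ 2 + b ^ 2 * e - 2 * b * c * d) + 2 * r * c * (a * e - c ^ 2) = -(t * (r * P ^ 3)) ∧
  ∃ g : Fin 3 → L, (∀ i j, ((am P r i j : ℤ) : ℚ) = hG.top (g i * g j / α)) ∧
    ∃ β : ℤ, P * β = -(2 * r * c) ∧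
      ∀ i j, ((hm a b c d e β i j : ℤ) : ℚ) = hG.top (θ * (g i * g j) / α)

/-- a quintuple -/
theorem cd_of2 {B : ℕ} {hG : IsGen 1 (pol A t) θ} (hHt : Ht 1 B (pol A t)) (hα : α ≠ 0)
    (hN : IsSquare (Algebra.norm ℚ α)) (hL : Lat hG α Λ) {P r : ℤ} {k : ℕ} {f : Fin 3 → L} {M : ℝ}
    (hM1 : 1 ≤ M) (hB : Bas hG α Λ P r M k f) {C₁ : ℕ} (hM : 2 * M ≤ C₁) :
    0 < r ∧ IsSquare (P ^ 2 * r) ∧ ∃ a b c d e : ℤ, (a : ℚ) = hG.top (θ * (f 0 * f 0) / α) ∧
      (b : ℚ) = hG.top (θ * (f 0 * f 1) / α) ∧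
      CdI A C₁ B P r k (fun _ : Unit => Rel hG α P r) () a b c d e := by
  have hli : LinearIndependent ℚ f := by
    refine li_of_gram (α := α) hG hB.gram ?_
    have : (am P r).det = -(P ^ 2 * r) := by
      unfold am
      rw [Matrix.det_fin_three]
      have : (0 : ℤ) * r * 0 - 0 * 0 * 0 - 0 * 0 * 0 + 0 * 0 * P + P * 0 * 0 - P * r * P =
        -(P ^ 2 * r) := by ring
      exact this
    rw [this]
    exact neg_ne_zero.2 (mul_ne_zero (pow_ne_zero 2 hB.P0) hB.r0)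
  obtain ⟨A', B', hGr, hAs, hBs, -, hchp, -, hdet, hq⟩ := Pool.Agent.N614.PF.chi 1 ℚ L (pol A t) θ hG
    α Λ f (pol_c2 A t) hα hL hB.mem hli
  have hex : ∀ i j, ∃ n : ℤ, (n : 𝓞 ℚ) = B' i j := fun i j => okq _
  choose H hH using hex
  have hHt' : ∀ i j, ((H i j : ℤ) : ℚ) = hG.top (θ * (f i * f j) / α) := by
    intro i j
    rw [← hGr.gB i j, ← hH i j]
    simp
  have hHs : ∀ i j, H i j = H j i := by
    intro i j
    have : ((H i j : ℤ) : ℚ) = ((H j i : ℤ) : ℚ) := by rw [hHt', hHt', mul_comm (f i)]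
    exact_mod_cast this
  have hAi : ∀ i j, A' i j = ((am P r i j : ℤ) : 𝓞 ℚ) := by
    intro i j
    refine RingOfIntegers.ext ?_
    rw [hGr.gA i j, ← hB.gram i j]
    simp
  -- the determinant
  obtain ⟨x, hx0, hx⟩ := hdet hN
  obtain ⟨n, hn⟩ := okq x
  have hdetA : A'.det = ((-(P ^ 2 * r) : ℤ) : 𝓞 ℚ) := by
    have h1 : A' = (am P r).map (Int.castRingHom (𝓞 ℚ)) := by
      ext i j
      rw [hAi i j]
      rfl
    rw [h1, ← RingHom.mapMatrix_apply, ← RingHom.map_det]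
    have : (am P r).det = -(P ^ 2 * r) := by
      unfold am
      rw [Matrix.det_fin_three]
      have : (0 : ℤ) * r * 0 - 0 * 0 * 0 - 0 * 0 * 0 + 0 * 0 * P + P * 0 * 0 - P * r * P =
        -(P ^ 2 * r) := by ring
      exact this
    rw [this]
    simp
  have hPr : P ^ 2 * r = n ^ 2 := by
    rw [hdetA, ← hn] at hx
    have : ((-(P ^ 2 * r) : ℤ) : 𝓞 ℚ) = ((-(n ^ 2) : ℤ) : 𝓞 ℚ) := by
      rw [hx]
      push_cast
      ring
    have h2 : -(P ^ 2 * r) = -(n ^ 2) := by exact_mod_cast this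
    linarith
  have hn0 : n ≠ 0 := by
    rintro rfl
    apply hx0
    rw [← hn]
    simp
  have hr0 : 0 < r := by
    have h1 : 0 < P ^ 2 * r := by rw [hPr]; positivity
    have h2 : 0 < P ^ 2 := by have := hB.P0; positivity
    exact pos_of_mul_pos_right h1 h2.le
  refine ⟨hr0, ⟨n, by rw [hPr]; ring⟩, H 0 0, H 0 1, H 0 2, H 1 2, H 2 2, hHt' 0 0, hHt' 0 1, ?_⟩
  -- sizes
  obtain ⟨y, hy⟩ : ∃ y : ℝ, y = 2 ^ k := ⟨_, rfl⟩
  have hy4 : (4 : ℝ) ^ k = y ^ 2 := by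
    rw [hy, ← pow_mul, mul_comm, pow_mul]
    norm_num
  have hy1 : 1 ≤ y := by rw [hy]; exact one_le_pow₀ (by norm_num)
  have hy0 : 0 < y := by linarith
  have hM0 : 0 < M := by linarith
  obtain ⟨q, hqd⟩ : ∃ q : Fin 3 → ℝ, q = fun i => HH (pol A t) θ α (f i) := ⟨_, rfl⟩
  have hqi : ∀ i, HH (pol A t) θ α (f i) = q i := fun i => by rw [hqd]
  have hqn : ∀ i, 0 ≤ q i := fun i => by rw [← hqi]; exact HH_nonneg' _ _ _ _
  have b0 : q 0 ≤ M / y ^ 2 := by
    rw [le_div_iff₀ (by positivity), ← hy4, ← hqi]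
    exact hB.h0
  have b1 : q 1 ≤ M := by rw [← hqi]; exact hB.h1
  have b2 : q 2 ≤ M * y ^ 2 := by rw [← hqi, ← hy4]; exact hB.h2
  have hmj : ∀ i j (R : ℝ), 0 ≤ R → q i * q j ≤ R ^ 2 → |(H i j : ℝ)| ≤ 2 * B * R := by
    intro i j R hR h
    refine abs_of_sq (by positivity) ?_
    have h1 := maj1 hG hHt hα 1 (f i) (f j) (n := H i j) (by rw [pow_one]; exact hHt' i j)
    rw [hqi, hqi] at h1
    calc (H i j : ℝ) ^ 2 ≤ (2 * B : ℝ) ^ (2 * 1) * (q i * q j) := h1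
      _ ≤ (2 * B : ℝ) ^ (2 * 1) * R ^ 2 := by gcongr
      _ = _ := by ring
  have hBn : (0 : ℝ) ≤ B := by positivity
  have hMB : 2 * B * M ≤ C₁ * B := by nlinarith
  have s00 : |(H 0 0 : ℝ)| ≤ C₁ * B / y ^ 2 := by
    have h1 := hmj 0 0 (M / y ^ 2) (by positivity) (by
      rw [pow_two]
      exact mul_le_mul b0 b0 (hqn 0) (by positivity))
    refine h1.trans ?_
    rw [← mul_div_assoc]
    gcongr
  have s01 : |(H 0 1 : ℝ)| ≤ C₁ * B / y := by
    have h1 := hmj 0 1 (M / y) (by positivity) (by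
      have : (M / y) ^ 2 = M / y ^ 2 * M := by field_simp
      rw [this]
      exact mul_le_mul b0 b1 (hqn 1) (by positivity))
    refine h1.trans ?_
    rw [← mul_div_assoc]
    gcongr
  have s02 : |(H 0 2 : ℝ)| ≤ C₁ * B := by
    have h1 := hmj 0 2 M (by positivity) (by
      have : M ^ 2 = M / y ^ 2 * (M * y ^ 2) := by field_simp
      rw [this]
      exact mul_le_mul b0 b2 (hqn 2) (by positivity))
    exact h1.trans hMB
  have s12 : |(H 1 2 : ℝ)| ≤ C₁ * B * y := by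
    have h1 := hmj 1 2 (M * y) (by positivity) (by
      have : (M * y) ^ 2 = M * (M * y ^ 2) := by ring
      rw [this]
      exact mul_le_mul b1 b2 (hqn 2) (by positivity))
    refine h1.trans ?_
    rw [← mul_assoc]
    gcongr
  have s22 : |(H 2 2 : ℝ)| ≤ C₁ * B * y ^ 2 := by
    have h1 := hmj 2 2 (M * y ^ 2) (by positivity) (by
      rw [pow_two (M * y ^ 2)]
      exact mul_le_mul b2 b2 (hqn 2) (by positivity))
    refine h1.trans ?_
    rw [← mul_assoc]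
    gcongr
  -- the equations
  have hmA : mF A' = !![0, 0, (P : ℚ); 0, (r : ℚ), 0; (P : ℚ), 0, 0] := by
    ext i j
    show ((A' i j : 𝓞 ℚ) : ℚ) = _
    rw [hAi i j]
    fin_cases i <;> fin_cases j <;> simp [am]
  have hBi : ∀ i j, ((B' i j : 𝓞 ℚ) : ℚ) = (H i j : ℚ) := by
    intro i j
    rw [← hH i j]
    simp
  have hmB : mF B' = !![(H 0 0 : ℚ), (H 0 1 : ℚ), (H 0 2 : ℚ); (H 0 1 : ℚ), (H 1 1 : ℚ), (H 1 2 : ℚ);
      (H 0 2 : ℚ), (H 1 2 : ℚ), (H 2 2 : ℚ)] := by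
    ext i j
    show ((B' i j : 𝓞 ℚ) : ℚ) = _
    rw [hBi i j]
    have e1 := hHs 1 0
    have e2 := hHs 2 0
    have e3 := hHs 2 1
    fin_cases i <;> fin_cases j <;> first | rfl | (simp only [Fin.zero_eta, Fin.mk_one, Fin.reduceFinMk]; first | rw [e1] | rw [e2] | rw [e3]) <;> rfl
  have hP0 : (P : ℚ) ≠ 0 := by exact_mod_cast hB.P0
  have hr0' : (r : ℚ) ≠ 0 := by exact_mod_cast hB.r0
  rw [hmA, hmB, fF_pol] at hchp
  obtain ⟨c1, c2, c3⟩ := chp_anti (by norm_num) hP0 hr0' hchp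
  have hPM : |P| ≤ C₁ := by
    have h1 : |(P : ℝ)| ≤ C₁ := hB.Pb.trans (by linarith)
    exact_mod_cast h1
  have hrM : |r| ≤ C₁ := by
    have h1 : |(r : ℝ)| ≤ C₁ := hB.rb.trans (by linarith)
    exact_mod_cast h1
  have hβ : P * H 1 1 = -(2 * r * H 0 2) := by exact_mod_cast c1
  refine ⟨by rw [← hy]; exact s00, by rw [← hy]; exact s01, s02, by rw [← hy]; exact s12,
    by rw [← hy]; exact s22, by exact_mod_cast c2, by exact_mod_cast c3, f, hB.gram, H 1 1, hβ, ?_⟩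
  intro i j
  rw [← hHt' i j]
  have e1 := hHs 1 0
  have e2 := hHs 2 0
  have e3 := hHs 2 1
  fin_cases i <;> fin_cases j <;> first | rfl | (simp only [Fin.zero_eta, Fin.mk_one, Fin.reduceFinMk]; first | rw [e1] | rw [e2] | rw [e3]) <;> rfl

/-- **A lattice of a nonsquare gives a bad parameter.** -/
theorem bad_of2 : ∃ C₁ : ℕ, 1 ≤ C₁ ∧ ∀ (L : Type) [Field L] [NumberField L] [Algebra ℚ L] (A t : ℤ)
    (B : ℕ) (θ : L) (hG : IsGen 1 (pol A t) θ) (α : L) (Λ : Submodule (𝓞 ℚ) L), 0 < 4 * A ^ 3 + 27 * t ^ 2 →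
    Ht 1 B (pol A t) → α ≠ 0 → IsSquare (Algebra.norm ℚ α) → Lat hG α Λ → ¬ IsSquare α →
    ∃ P r : ℤ, (P, r) ∈ Pr C₁ ∧ ∃ k : ℕ, BkI A C₁ B P r k (fun _ : Unit => Rel hG α P r) () := by
  obtain ⟨D, hD1, hD⟩ := bas2
  obtain ⟨C₁, hC₁⟩ : ∃ C₁ : ℕ, C₁ = 72 * D ^ 5 := ⟨_, rfl⟩
  have hD1' : (1 : ℝ) ≤ D := by exact_mod_cast hD1
  refine ⟨C₁, by rw [hC₁]; have : 0 < D ^ 5 := by positivity
                 omega, ?_⟩
  intro L _ _ _ A t B θ hG α Λ hA hHt hα hN hL hns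
  obtain ⟨P, r, k, g, hB⟩ := hD L A t B θ hG α Λ hA hHt hα hN hL
  have hM1 : (1 : ℝ) ≤ 36 * D ^ 5 := by
    have : (1 : ℝ) ≤ (D : ℝ) ^ 5 := one_le_pow₀ hD1'
    linarith
  have hMC : 2 * (36 * (D : ℝ) ^ 5) ≤ C₁ := by rw [hC₁]; push_cast; linarith
  have key := fun m (hm : m < 2 ^ k) => cd_of2 hHt hα hN hL hM1 (unip hD1' hB hm) hMC
  obtain ⟨hr0, hsq, -⟩ := key 0 (by positivity)
  -- the form of `θ`
  have hex : ∀ i j, ∃ n : ℤ, (n : ℚ) = hG.top (θ * (g i * g j) / α) := by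
    intro i j
    have h := exists_int hG hL (hL.stab _ (hB.mem i)) (hB.mem j)
    rwa [mul_assoc] at h
  choose H hH using hex
  have hvec : ∀ n m : Fin 3 → ℤ, ((bf (Matrix.of H) n m : ℤ) : ℚ) =
      hG.top (θ * (Pool.Agent.V7H54.A.vec g n * Pool.Agent.V7H54.A.vec g m) / α) := by
    intro n m
    have e1 : θ * (Pool.Agent.V7H54.A.vec g n * Pool.Agent.V7H54.A.vec g m) / α =
        ∑ i, ∑ j, ((n i * m j : ℤ) : L) * (θ * (g i * g j) / α) := by
      unfold Pool.Agent.V7H54.A.vec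
      rw [Finset.sum_mul, Finset.mul_sum, Finset.sum_div]
      refine Finset.sum_congr rfl fun i _ => ?_
      rw [Finset.mul_sum, Finset.mul_sum, Finset.sum_div]
      refine Finset.sum_congr rfl fun j _ => ?_
      push_cast
      ring
    rw [e1, map_sum]
    unfold bf
    push_cast
    refine Finset.sum_congr rfl fun i _ => ?_
    rw [map_sum]
    refine Finset.sum_congr rfl fun j _ => ?_
    have := top_int hG (n i * m j) (θ * (g i * g j) / α)
    push_cast at this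
    rw [this, ← hH]
    rfl
  have hli : LinearIndependent ℚ g := by
    refine li_of_gram (α := α) hG hB.gram ?_
    have : (am P r).det = -(P ^ 2 * r) := by
      unfold am
      rw [Matrix.det_fin_three]
      have : (0 : ℤ) * r * 0 - 0 * 0 * 0 - 0 * 0 * 0 + 0 * 0 * P + P * 0 * 0 - P * r * P =
        -(P ^ 2 * r) := by ring
      exact this
    rw [this]
    exact neg_ne_zero.2 (mul_ne_zero (pow_ne_zero 2 hB.P0) hB.r0)
  have ha0 : H 0 0 ≠ 0 := by
    intro h0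
    apply hns
    refine Pool.Agent.N482.PF.sq 1 ℚ L (pol A t) θ le_rfl hG α g hα hli ?_ ?_ hN
    · intro i j hi hj
      have hi0 : i = 0 := Fin.ext (by simpa using hi)
      have hj0 : j = 0 := Fin.ext (by simpa using hj)
      rw [hi0, hj0]
      have := hB.gram 0 0
      have e : am P r 0 0 = 0 := rfl
      rw [e, Int.cast_zero] at this
      exact this.symm
    · intro i j hi hj
      have hi0 : i = 0 := Fin.ext (by simpa using hi)
      have hj0 : j = 0 := Fin.ext (by simpa using hj)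
      rw [hi0, hj0, ← hH, h0, Int.cast_zero]
  have hcd : ∀ m : ℕ, m < 2 ^ k → ∃ c d e : ℤ,
      CdI A C₁ B P r k (fun _ : Unit => Rel hG α P r) () (H 0 0) (H 0 1 + 2 * r * m * H 0 0) c d e := by
    intro m hm
    obtain ⟨-, -, a, b, c, d, e, ha, hb, hcd⟩ := key m hm
    refine ⟨c, d, e, ?_⟩
    have ea : a = H 0 0 := by
      have h1 : (a : ℚ) = ((bf (Matrix.of H) ![1, 0, 0] ![1, 0, 0] : ℤ) : ℚ) := by
        rw [hvec]
        exact ha
      have h2 : a = bf (Matrix.of H) ![1, 0, 0] ![1, 0, 0] := by exact_mod_cast h1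
      rw [h2, bf_eq]
      simp
    have eb : b = H 0 1 + 2 * r * m * H 0 0 := by
      have h1 : (b : ℚ) = ((bf (Matrix.of H) ![1, 0, 0] ![2 * r * m, 1, 0] : ℤ) : ℚ) := by
        rw [hvec]
        exact hb
      have h2 : b = bf (Matrix.of H) ![1, 0, 0] ![2 * r * m, 1, 0] := by exact_mod_cast h1
      rw [h2, bf_eq]
      simp
      ring
    rw [ea, eb] at hcd
    exact hcd
  have hPM : |P| ≤ C₁ := by
    have h1 : |(P : ℝ)| ≤ C₁ := hB.Pb.trans (by
      have : (D : ℝ) ≤ (D : ℝ) ^ 5 := by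
        have := pow_le_pow_right₀ hD1' (show 1 ≤ 5 by norm_num)
        rwa [pow_one] at this
      linarith)
    exact_mod_cast h1
  have hrM : |r| ≤ C₁ := by
    have h1 : |(r : ℝ)| ≤ C₁ := hB.rb.trans (by
      have : (D : ℝ) ≤ (D : ℝ) ^ 5 := by
        have := pow_le_pow_right₀ hD1' (show 1 ≤ 5 by norm_num)
        rwa [pow_one] at this
      linarith)
    exact_mod_cast h1
  refine ⟨P, r, ?_, k, ?_, H 0 0, H 0 1, ha0, hcd⟩
  · unfold Pr
    rw [Finset.mem_filter, Finset.mem_product, Finset.mem_Icc, Finset.mem_Icc]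
    refine ⟨⟨abs_le.1 hPM, ?_, (le_abs_self r).trans hrM⟩, hB.P0, hsq⟩
    show 1 ≤ r
    omega
  · obtain ⟨c, d, e, h1, -⟩ := hcd 0 (by positivity)
    have h2 : (1 : ℝ) ≤ |(H 0 0 : ℝ)| := by
      rw [← Int.cast_abs]
      exact_mod_cast Int.one_le_abs ha0
    have h3 := h2.trans h1
    rw [le_div_iff₀ (by positivity)] at h3
    linarith

end lat

end Pool.Agent.V7H54.N
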