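import Pool.Agent.V7H54.N.QuN

/-!
# The quintuple determines the square class
-/

set_option autoImplicit false
set_option linter.all false

open Polynomial Matrix NumberField
open scoped Classical

namespace Pool.Agent.V7H54.N

open Pool.Agent.V7H54.A
open Pool.Agent.N783.PF

section lat

variable {L : Type} [Field L] [NumberField L] [Algebra ℚ L] {A t : ℤ} {θ : L}
  {α α' : L}

theorem top_sq (hG : IsGen 1 (pol A t) θ) : hG.top (θ ^ 2) = 1 := by
  have h := hG.basis_apply (Fin.last (2 * 1))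
  have e : ((Fin.last (2 * 1) : Fin (2 * 1 + 1)) : ℕ) = 2 := rfl
  rw [e] at h
  unfold IsGen.top
  rw [← h, Module.Basis.coord_apply, Module.Basis.repr_self, Finsupp.single_eq_same]

theorem nondeg (hG : IsGen 1 (pol A t) θ) {z : L} (h : ∀ x : L, hG.top (x * z) = 0) : z = 0 := by
  by_contra hz
  have h1 := h (θ ^ 2 / z)
  rw [div_mul_cancel₀ _ hz, top_sq hG] at h1
  exact one_ne_zero h1

theorem am_det (P r : ℤ) : (am P r).det = -(P ^ 2 * r) := by
  unfold am
  rw [Matrix.det_fin_three]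
  have : (0 : ℤ) * r * 0 - 0 * 0 * 0 - 0 * 0 * 0 + 0 * 0 * P + P * 0 * 0 - P * r * P =
    -(P ^ 2 * r) := by ring
  exact this

/-- **The quintuple determines the square class.** -/
theorem sep (hG : IsGen 1 (pol A t) θ) (hα : α ≠ 0) (hα' : α' ≠ 0) {P r : ℤ} (hP : P ≠ 0)
    (hr : r ≠ 0) {a b c d e : ℤ} (h1 : Rel hG α P r a b c d e) (h2 : Rel hG α' P r a b c d e) :
    ∃ s : L, α' = s ^ 2 * α := by
  obtain ⟨-, g, hg, β, hβ, hg2⟩ := h1
  obtain ⟨-, g', hg', β', hβ', hg2'⟩ := h2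
  have hββ : β = β' := mul_left_cancel₀ hP (hβ.trans hβ'.symm)
  subst hββ
  have hdet : (am P r).det ≠ 0 := by
    rw [am_det]
    exact neg_ne_zero.2 (mul_ne_zero (pow_ne_zero 2 hP) hr)
  have hli : LinearIndependent ℚ g := li_of_gram (α := α) hG hg hdet
  have hli' : LinearIndependent ℚ g' := li_of_gram (α := α') hG hg' hdet
  have hfr : Fintype.card (Fin 3) = Module.finrank ℚ L := by
    rw [hG.rank, Fintype.card_fin]
  obtain ⟨v, hv⟩ : ∃ v : Module.Basis (Fin 3) ℚ L, ∀ i, v i = g i :=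
    ⟨basisOfLinearIndependentOfCardEqFinrank hli hfr, fun i => by
      rw [coe_basisOfLinearIndependentOfCardEqFinrank]⟩
  obtain ⟨v', hv'⟩ : ∃ v : Module.Basis (Fin 3) ℚ L, ∀ i, v i = g' i :=
    ⟨basisOfLinearIndependentOfCardEqFinrank hli' hfr, fun i => by
      rw [coe_basisOfLinearIndependentOfCardEqFinrank]⟩
  obtain ⟨φ, hφ⟩ : ∃ φ : L ≃ₗ[ℚ] L, φ = v.equiv v' (Equiv.refl _) := ⟨_, rfl⟩
  have hφv : ∀ i, φ (v i) = v' i := fun i => by
    rw [hφ, Module.Basis.equiv_apply]
    rfl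
  have key : ∀ (z z' : L), (∀ i j, hG.top (z * (g i * g j)) = hG.top (z' * (g' i * g' j))) →
      ∀ x y : L, hG.top (z * (x * y)) = hG.top (z' * (φ x * φ y)) := by
    intro z z' hzz
    obtain ⟨B₁, hB₁⟩ : ∃ B : L →ₗ[ℚ] L →ₗ[ℚ] ℚ, ∀ x y, B x y = hG.top (z * (x * y)) :=
      ⟨LinearMap.mk₂ ℚ (fun x y => hG.top (z * (x * y)))
        (fun x x' y => by rw [← map_add]; congr 1; ring)
        (fun q x y => by rw [smul_mul_assoc, mul_smul_comm, map_smul])
        (fun x y y' => by rw [← map_add]; congr 1; ring)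
        (fun q x y => by rw [mul_smul_comm, mul_smul_comm, map_smul]), fun x y => rfl⟩
    obtain ⟨B₂, hB₂⟩ : ∃ B : L →ₗ[ℚ] L →ₗ[ℚ] ℚ, ∀ x y, B x y = hG.top (z' * (φ x * φ y)) :=
      ⟨LinearMap.mk₂ ℚ (fun x y => hG.top (z' * (φ x * φ y)))
        (fun x x' y => by rw [← map_add, map_add]; congr 1; ring)
        (fun q x y => by rw [map_smul, smul_mul_assoc, mul_smul_comm, map_smul])
        (fun x y y' => by rw [← map_add, map_add]; congr 1; ring)
        (fun q x y => by rw [map_smul, mul_smul_comm, mul_smul_comm, map_smul]), fun x y => rfl⟩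
    have hBB : B₁ = B₂ := by
      refine v.ext fun i => v.ext fun j => ?_
      rw [hB₁, hB₂, hφv, hφv, hv, hv, hv', hv']
      exact hzz i j
    intro x y
    rw [← hB₁, ← hB₂, hBB]
  have k1 : ∀ x y : L, hG.top (1 / α * (x * y)) = hG.top (1 / α' * (φ x * φ y)) := by
    refine key _ _ fun i j => ?_
    have e1 := hg i j
    have e2 := hg' i j
    rw [e1] at e2
    have f1 : g i * g j / α = 1 / α * (g i * g j) := by ring
    have f2 : g' i * g' j / α' = 1 / α' * (g' i * g' j) := by ring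
    rw [f1, f2] at e2
    exact e2
  have k2 : ∀ x y : L, hG.top (θ / α * (x * y)) = hG.top (θ / α' * (φ x * φ y)) := by
    refine key _ _ fun i j => ?_
    have e1 := hg2 i j
    have e2 := hg2' i j
    rw [e1] at e2
    have f1 : θ * (g i * g j) / α = θ / α * (g i * g j) := by ring
    have f2 : θ * (g' i * g' j) / α' = θ / α' * (g' i * g' j) := by ring
    rw [f1, f2] at e2
    exact e2
  have hθ : ∀ x : L, φ (θ * x) = θ * φ x := by
    intro x
    have h3 : (φ (θ * x) - θ * φ x) / α' = 0 := by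
      refine nondeg hG fun w => ?_
      obtain ⟨y, rfl⟩ := φ.surjective w
      have e1 := k1 (θ * x) y
      have e2 := k2 x y
      have f1 : 1 / α * (θ * x * y) = θ / α * (x * y) := by ring
      rw [f1, e2] at e1
      have f2 : φ y * ((φ (θ * x) - θ * φ x) / α') =
          1 / α' * (φ (θ * x) * φ y) - θ / α' * (φ x * φ y) := by ring
      rw [f2, map_sub, ← e1, sub_self]
    rcases div_eq_zero_iff.1 h3 with h | h
    · exact sub_eq_zero.1 h
    · exact absurd h hα'
  have hφx : ∀ x : L, φ x = x * φ 1 := by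
    intro x
    obtain ⟨q, rfl⟩ := hG.gen x
    have hpow : ∀ n : ℕ, φ (θ ^ n) = θ ^ n * φ 1 := by
      intro n
      induction n with
      | zero => rw [pow_zero, one_mul]
      | succ n ih => rw [pow_succ', hθ, ih, mul_assoc]
    rw [map_sum, Finset.sum_mul]
    refine Finset.sum_congr rfl fun i _ => ?_
    rw [← Algebra.smul_def, map_smul, hpow, smul_mul_assoc]
  refine ⟨φ 1, ?_⟩
  have h4 : φ 1 ^ 2 / α' - 1 / α = 0 := by
    refine nondeg hG fun x => ?_
    have e1 := k1 x 1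
    rw [hφx x] at e1
    have f1 : x * (φ 1 ^ 2 / α' - 1 / α) = 1 / α' * (x * φ 1 * φ 1) - 1 / α * (x * 1) := by ring
    rw [f1, map_sub, e1, sub_self]
  have h5 : φ 1 ^ 2 / α' = 1 / α := sub_eq_zero.1 h4
  rw [div_eq_div_iff hα' hα] at h5
  rw [h5, one_mul]

end lat

end Pool.Agent.V7H54.N
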